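import Pool.Agent.Helper78.W3.StD

/-! # Project W3, module Uni: a symbol with vanishing plane functions is constant -/

set_option autoImplicit false

namespace Pool.Agent.Helper32.W3

open Pool.Agent.Helper78.W3 Pool.Agent.Helper14.W3
open Pool.Agent.Helper14.CV (Homog EqC act Tl StFar)

private theorem unit_Uni (r : ℕ) {a d m : ℤ} (ha : a * d - 9 * m = 1) (b : ℤ) :
    ∃ x : ZMod (3 ^ r), (b : ZMod (3 ^ r)) = x * (a : ZMod (3 ^ r)) := by
  have h1 : IsCoprime ((3 ^ r : ℕ) : ℤ) a := by
    push_cast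
    refine IsCoprime.pow_left ?_
    exact ⟨-(3 * m), d, by linear_combination ha⟩
  obtain ⟨u, hu⟩ := (ZMod.coe_int_isUnit_iff_isCoprime a (3 ^ r)).2 h1
  refine ⟨b * ((u⁻¹ : (ZMod (3 ^ r))ˣ) : ZMod (3 ^ r)), ?_⟩
  rw [← hu, mul_assoc, Units.inv_mul, mul_one]

/-- the values on the edges of the class of the identity -/
private theorem base_Uni (hEdg : S3Edg) {R : Type} [AddCommGroup R] {r s : ℕ} {G : ℤ → ℤ → R}
    (hG : Sym3 (r + 1) (s + 1) G)
    (h0 : ∀ i, (pf G i : ZMod (3 ^ r) → ZMod (3 ^ s) → R) = 0)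
    {a b c d : ℤ} (hdet : a * d - b * c = 1) (hb : (3 : ℤ) ∣ b) (hc : (3 : ℤ) ∣ c) :
    G a c = G b d ∧ G a c = G (a + b) (c + d) ∧ G a c = G (b - a) (d - c) := by
  obtain ⟨b', rfl⟩ := hb
  obtain ⟨c', rfl⟩ := hc
  obtain ⟨x, hx⟩ := unit_Uni r (a := a) (d := d) (m := b' * c') (by linear_combination hdet) b'
  obtain ⟨y, hy⟩ := unit_Uni s (a := d) (d := a) (m := b' * c') (by linear_combination hdet) c'
  have hP : Pl3 1 a b' c' d x y := ⟨by linear_combination hdet, hx, hy⟩
  have key : ∀ e : ℤ, edge3 1 1 0 e 1 G x y = 0 →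
      G a (3 * c') = G (a * e + 3 * b') (3 * c' * e + d) := by
    intro e he
    have e1 := hEdg R inferInstance 1 r s G hG 1 0 e 1 (Or.inl one_ne_zero) (Or.inr one_ne_zero)
      x y a b' c' d hP
    rw [he] at e1
    have f1 := sub_eq_zero.1 e1.symm
    have p1 : a * 1 + 3 ^ 1 * b' * 0 = a := by ring
    have p2 : 3 * c' * 1 + d * 0 = 3 * c' := by ring
    have p3 : a * e + 3 ^ 1 * b' * 1 = a * e + 3 * b' := by ring
    have p4 : 3 * c' * e + d * 1 = 3 * c' * e + d := by ring
    rw [p1, p2, p3, p4] at f1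
    exact f1
  have g0 := key 0 (congrFun (congrFun (h0 0) x) y)
  have g1 := key 1 (congrFun (congrFun (h0 1) x) y)
  have g2 := key (-1) (congrFun (congrFun (h0 2) x) y)
  refine ⟨?_, ?_, ?_⟩
  · rw [mul_zero, mul_zero, zero_add, zero_add] at g0
    exact g0
  · rw [mul_one, mul_one] at g1
    exact g1
  · have p1 : a * -1 + 3 * b' = 3 * b' - a := by ring
    have p2 : 3 * c' * -1 + d = d - 3 * c' := by ring
    rw [p1, p2] at g2
    exact g2

theorem hUni (_hTre : S3Tre) (hEdg : S3Edg) (hFar : StFar) : S3Uni := by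
  intro R _ r s G hG h0
  refine hFar R inferInstance G hG.1 ?_
  -- the first column is congruent to `(1, 0)` up to sign
  have key : ∀ a b c d : ℤ, a * d - b * c = 1 → (3 : ℤ) ∣ c → G a c = G b d := by
    intro a b c d hdet hc
    have ha : a % 3 = 1 ∨ a % 3 = 2 := by
      by_contra hcon
      have h3 : (3 : ℤ) ∣ a := by omega
      have h4 : (3 : ℤ) ∣ a * d - b * c := dvd_sub (h3.mul_right d) (hc.mul_left b)
      rw [hdet] at h4
      omega
    have hk : (3 : ℤ) ∣ b ∨ (3 : ℤ) ∣ b - a ∨ (3 : ℤ) ∣ b + a := by omega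
    rcases hk with hb | hb | hb
    · exact (base_Uni hEdg hG h0 hdet hb hc).1
    · by_cases hb0 : (3 : ℤ) ∣ b
      · exact (base_Uni hEdg hG h0 hdet hb0 hc).1
      · have e := (base_Uni hEdg hG h0 (a := a) (b := b - a) (c := c) (d := d - c)
          (by linear_combination hdet) hb hc).2.1
        rw [add_sub_cancel, add_sub_cancel] at e
        exact e
    · have e := (base_Uni hEdg hG h0 (a := a) (b := b + a) (c := c) (d := d + c)
        (by linear_combination hdet) hb hc).2.2
      rw [add_sub_cancel_right, add_sub_cancel_right] at e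
      exact e
  have neg : ∀ p q : ℤ, (p ≠ 0 ∨ q ≠ 0) → G (-p) (-q) = G p q := by
    intro p q hpq
    have e := hG.1 (-1) p q (by norm_num) hpq
    rw [neg_one_mul, neg_one_mul] at e
    exact e
  have nz : ∀ a b c d : ℤ, a * d - b * c = 1 → (a ≠ 0 ∨ c ≠ 0) ∧ (b ≠ 0 ∨ d ≠ 0) := by
    intro a b c d hdet
    constructor
    · by_contra hcon
      push Not at hcon
      rw [hcon.1, hcon.2] at hdet
      norm_num at hdet
    · by_contra hcon
      push Not at hcon
      rw [hcon.1, hcon.2] at hdet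
      norm_num at hdet
  intro a b c d hdet
  obtain ⟨n1, n2⟩ := nz a b c d hdet
  by_cases hc : (3 : ℤ) ∣ c
  · exact key a b c d hdet hc
  by_cases hd : (3 : ℤ) ∣ d
  · have e := key b (-a) d (-c) (by linear_combination hdet) hd
    rw [neg a c n1] at e
    exact e.symm
  have hk : (3 : ℤ) ∣ c + d ∨ (3 : ℤ) ∣ c - d := by
    have k1 : c % 3 = 1 ∨ c % 3 = 2 := by omega
    have k2 : d % 3 = 1 ∨ d % 3 = 2 := by omega
    rcases k1 with k1 | k1 <;> rcases k2 with k2 | k2
    · right; omega
    · left; omega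
    · left; omega
    · right; omega
  rcases hk with hk | hk
  · have e1 := key (a + b) b (c + d) d (by linear_combination hdet) hk
    have e2 := key (a + b) (-a) (c + d) (-c) (by linear_combination hdet) hk
    rw [neg a c n1] at e2
    exact e2.symm.trans e1
  · have e1 := key (a - b) b (c - d) d (by linear_combination hdet) hk
    have e2 := key (a - b) a (c - d) c (by linear_combination hdet) hk
    exact e2.symm.trans e1

end Pool.Agent.Helper32.W3
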